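import Mathlib
import Pool.Agent.H139R3.MF.Final

set_option autoImplicit false

/-!
# Every aperiodic countable Borel equivalence relation has a minimal `F_σ` realization

Take an uncountable Borel set `T` of pairwise inequivalent points and a Borel partition of the rest
into complete sections `X_w`, indexed by the finitely supported `w : ℕ → ℕ`. Choose a Polish
topology on `X` for which Borel involutions generating the relation (Feldman-Moore) are continuous,
the pieces are clopen and a fixed Borel isomorphism of `T` with the set of `z : ℕ → ℕ` of infinite
support is continuous. In a closed subset `Y` of `(ℕ → ℕ) × ∏_w X_w` every `X_w` is put on the fibre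
over `w`, as a closed set, and `T` on the fibres over the other points, which are single points;
every nonempty open set contains some copy of some `X_w`. Off the diagonal, equivalent pairs
have a member in some `X_w`, and the pairs `(s_n x, x)` with `x` in `X_w` form a closed set.
-/

namespace Pool.Agent.Results.MP_daea50_lc.MinimalFSigma

open Pool.Agent.H139R3.MF

universe u

/-- Every aperiodic countable Borel equivalence relation on an uncountable standard Borel space
is Borel isomorphic to an equivalence relation on a Polish space which is an `F_σ` set and all of
whose classes are dense. -/
theorem result {X : Type u} [MeasurableSpace X] [StandardBorelSpace X] (hX : ¬ Countable X)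
    (E : X → X → Prop) (hE : Equivalence E) (hm : MeasurableSet {p : X × X | E p.1 p.2})
    (hc : ∀ x, {y | E x y}.Countable) (ha : ∀ x, {y | E x y}.Infinite) :
    ∃ (Y : Type u) (_ : TopologicalSpace Y) (_ : PolishSpace Y) (_ : MeasurableSpace Y)
      (_ : BorelSpace Y) (f : X ≃ᵐ Y),
      (∃ K : ℕ → Set (Y × Y), (∀ n, IsClosed (K n)) ∧
        {p : Y × Y | E (f.symm p.1) (f.symm p.2)} = ⋃ n, K n) ∧
      ∀ y, Dense {z | E (f.symm y) (f.symm z)} :=
  final hX E hE hm hc ha

end Pool.Agent.Results.MP_daea50_lc.MinimalFSigma
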